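import Pool.Agent.N110.CC.W4

/-!
The movable cone conjecture in the subspace generated by an invariant group of divisor classes.
-/

set_option autoImplicit false

open FF Pool.Agent.W602.GT Pool.Agent.Y172 Pool.Agent.R887 Pool.Agent.N110 Pool.Agent.N110.CC

/-- Let `X` be a normal projective variety of dimension `n ≥ 1`, with generic point `y`, and let the
vectors `c P` be the classes of the prime divisors in `N¹(X) = ℤ ^ ρ`. Let `𝒮` be a group of
pseudo-automorphisms of `X` (if `X` is smooth and `K_X ≡ 0` every birational self-map is one), given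
by the automorphisms `ψ = f^*` of the function field. Let `𝒮` contain a group `ℤ ^ r`, `r ≥ 1`, of
maps `f_v` with `φ v = f_v^*`, such that `f_v` has positive entropy (the first dynamical degree is
greater than `1`) for all `v ≠ 0`. Let `Λ` be the group generated by `r + 1` linearly independent
classes `s j` in `N¹(X)`, such that the pull backs by the elements of `𝒮` map `Λ` into itself. Suppose
that `Λ ⊗ ℝ` contains a class, with coordinates `t₀`, which is big (in the interior of the effective
cone) and in the closed movable cone, for instance an ample class. Identify `Λ ⊗ ℝ` with `ℝ ^ (r+1)`.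

Then all effective classes in `Λ ⊗ ℝ` are in the closed movable cone, they are zero or big, and the
action of `𝒮` on the cone `Mov(X) ∩ Eff(X) ∩ (Λ ⊗ ℝ)`, `Mov(X)` being the closed movable cone, has a
rational polyhedral fundamental domain. The Picard number `ρ` may be greater than `r + 1`. -/
theorem Pool.Agent.Results.MP_e39d36_ag.InvariantSublattices.result
    {K : Type} [Field K] [Algebra ℂ K] {N n r ρ : ℕ} {y : Fin (N + 1) → K} (hy : NormalModel y)
    (hn : Algebra.trdeg ℂ K = n) (hn0 : 0 < n) (hr : 0 < r)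
    {c : Place ℂ K → Fin ρ → ℤ} (hc : PicardBasis y c)
    {𝒮 : Subgroup (K ≃ₐ[ℂ] K)} (h𝒮 : ∀ ψ ∈ 𝒮, PseudoAut ψ y)
    {φ : (Fin r → ℤ) → (K ≃ₐ[ℂ] K)} (hφ : ∀ u v, φ (u + v) = φ u * φ v) (hφ𝒮 : ∀ v, φ v ∈ 𝒮)
    (hent : ∀ v, v ≠ 0 → 1 < dynDegree (φ v) y n 1)
    {s : Fin (r + 1) → Fin ρ → ℤ} (hli : LinearIndependent ℝ (fun j i => (s j i : ℝ)))
    (hst : ∀ ψ ∈ 𝒮, PreservesSpan y c s ψ) {t₀ : Fin (r + 1) → ℝ}
    (ht₀ : comb s t₀ ∈ interior (effCone y c)) (ht₀' : comb s t₀ ∈ movCone y c) :
    (∀ t, comb s t ∈ effCone y c → comb s t ∈ movCone y c ∧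
      (t ≠ 0 → comb s t ∈ interior (effCone y c))) ∧
    HasFundDomain {T | ∃ ψ ∈ 𝒮, IsPullBackOn y c s ψ T}
      {t | comb s t ∈ movCone y c ∩ effCone y c} :=
  sub_mov hy hn hn0 hr hc h𝒮 hφ hφ𝒮 hent hli hst ht₀ ht₀'
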