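import Pool.Agent.N165.KM.Descent
import Pool.Agent.N165.KM.HomDiv

/-!
# MP_e39d36_ag: the movable cone conjecture passes to products and quotients

`Pool.Agent.Y167.cone S` is the convex cone generated by the finite set `S`.
-/

namespace Pool.Agent.Results.MP_e39d36_ag.MovableQuotients

open Pool.Agent.Y167 (cone)
open Pool.Agent.N165.KM

/-- The vector `x` has integral coordinates. -/
def Integral {ρ : ℕ} (x : Fin ρ → ℝ) : Prop := ∀ i, ∃ m : ℤ, x i = m

/-- `C` is a closed convex cone without lines and with nonempty interior. -/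
structure IsProperCone {ρ : ℕ} (C : Set (Fin ρ → ℝ)) : Prop where
  closed : IsClosed C
  add : ∀ x ∈ C, ∀ y ∈ C, x + y ∈ C
  smul : ∀ t : ℝ, 0 ≤ t → ∀ x ∈ C, t • x ∈ C
  line : ∀ x ∈ C, -x ∈ C → x = 0
  int : (interior C).Nonempty

/-- `E` is a convex cone. -/
structure IsConvexCone {ρ : ℕ} (E : Set (Fin ρ → ℝ)) : Prop where
  add : ∀ x ∈ E, ∀ y ∈ E, x + y ∈ E
  smul : ∀ t : ℝ, 0 ≤ t → ∀ x ∈ E, t • x ∈ E

/-- The group `A` acts on `ℝ^ρ` from the right by linear maps which preserve the set of integral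
vectors and the sets `C` and `E`. -/
structure IsAction {ρ : ℕ} {A : Type} [Group A] (pull : A → (Fin ρ → ℝ) → (Fin ρ → ℝ))
    (C E : Set (Fin ρ → ℝ)) : Prop where
  lin : ∀ f, IsLinearMap ℝ (pull f)
  one : ∀ x, pull 1 x = x
  mul : ∀ f g x, pull (f * g) x = pull g (pull f x)
  int : ∀ f x, Integral x → Integral (pull f x)
  fst : ∀ f, ∀ x ∈ C, pull f x ∈ C
  snd : ∀ f, ∀ x ∈ E, pull f x ∈ E

/-- `T` has the properties of the identity component `Aut^0(X)` of the group `Aut(X)`, which is an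
abelian variety: it is a normal, commutative, divisible subgroup with finite torsion groups, which
acts trivially on `N^1(X)`, and it has finite index in the group of the automorphisms which act
trivially on `N^1(X)`. -/
structure IsIdentityComponent {ρ : ℕ} {B : Type} [Group B]
    (pull : B → (Fin ρ → ℝ) → (Fin ρ → ℝ)) (A T : Subgroup B) : Prop where
  le : T ≤ A
  normal : T.Normal
  comm : ∀ s ∈ T, ∀ t ∈ T, s * t = t * s
  div : ∀ n : ℕ, 0 < n → ∀ t ∈ T, ∃ s ∈ T, s ^ n = t
  tors : ∀ n : ℕ, 0 < n → {t | t ∈ T ∧ t ^ n = 1}.Finite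
  trivial : ∀ t ∈ T, ∀ x, pull t x = x
  index : ∃ R : Finset B, ∀ k ∈ A, (∀ x, pull k x = x) → ∃ r ∈ R, r⁻¹ * k ∈ T

/-- The numerical data of a smooth projective variety `X` over `ℂ` with `K_X ≡ 0`. A basis of the
lattice of the classes of Cartier divisors identifies `N^1(X)` with `ℝ^ρ` and this lattice with
`ℤ^ρ`. -/
structure KTrivial where
  /-- the Picard number -/
  ρ : ℕ
  /-- the nef cone -/
  Nef : Set (Fin ρ → ℝ)
  /-- the closure of the movable cone -/
  Mov : Set (Fin ρ → ℝ)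
  /-- the effective cone -/
  Eff : Set (Fin ρ → ℝ)
  nef : IsProperCone Nef
  mov : IsProperCone Mov
  eff : IsConvexCone Eff
  nef_mov : Nef ⊆ Mov
  /-- the classes in the interior of the movable cone are effective -/
  int_eff : interior Mov ⊆ Eff
  /-- the group of birational automorphisms of `X` -/
  Bir : Type
  [grp : Group Bir]
  /-- the pull-back of classes by a birational automorphism (an isomorphism in codimension one) -/
  pull : Bir → (Fin ρ → ℝ) → (Fin ρ → ℝ)
  action : IsAction pull Mov Eff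
  /-- the group of automorphisms: the birational automorphisms which preserve the nef cone -/
  Aut : Subgroup Bir
  aut_iff : ∀ f, f ∈ Aut ↔ pull f '' Nef = Nef
  /-- the identity component of the automorphism group -/
  Aut0 : Subgroup Bir
  aut0 : IsIdentityComponent pull Aut Aut0

attribute [instance] KTrivial.grp

/-- The movable cone conjecture for `X`: there is a rational polyhedral cone `cone S` which is a
fundamental domain for the action of `Bir(X)` on the effective movable cone. -/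
def MovableConeConjecture (X : KTrivial) : Prop :=
  ∃ S : Finset (Fin X.ρ → ℝ), (∀ s ∈ S, Integral s) ∧
    X.Mov ∩ X.Eff = ⋃ f : X.Bir, X.pull f '' cone S ∧
    ∀ f : X.Bir, (∃ x, X.pull f x ≠ x) →
      interior (cone S) ∩ X.pull f '' interior (cone S) = ∅

/-- `X` is the product of `X₁` and `X₂`, where one of the factors has no holomorphic 1-forms, so
that `N^1(X) = N^1(X₁) ⊕ N^1(X₂)`. -/
structure IsProduct (X₁ X₂ X : KTrivial) where
  /-- the two components of a class on the product -/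
  e₁ : (Fin X.ρ → ℝ) → (Fin X₁.ρ → ℝ)
  e₂ : (Fin X.ρ → ℝ) → (Fin X₂.ρ → ℝ)
  lin₁ : IsLinearMap ℝ e₁
  lin₂ : IsLinearMap ℝ e₂
  bij : Function.Bijective fun x => (e₁ x, e₂ x)
  int : ∀ x, Integral x ↔ Integral (e₁ x) ∧ Integral (e₂ x)
  nef : ∀ x, x ∈ X.Nef ↔ e₁ x ∈ X₁.Nef ∧ e₂ x ∈ X₂.Nef
  mov : ∀ x, x ∈ X.Mov ↔ e₁ x ∈ X₁.Mov ∧ e₂ x ∈ X₂.Mov
  eff : ∀ x, x ∈ X.Eff ↔ e₁ x ∈ X₁.Eff ∧ e₂ x ∈ X₂.Eff
  /-- the birational automorphism `f₁ × f₂` -/
  aut : ∀ (f₁ : X₁.Bir) (f₂ : X₂.Bir), ∃ f : X.Bir,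
    ∀ x, e₁ (X.pull f x) = X₁.pull f₁ (e₁ x) ∧ e₂ (X.pull f x) = X₂.pull f₂ (e₂ x)

/-- `Y = X / G`, with the quotient map `p : X → Y`. -/
structure IsQuotient (X Y : KTrivial) (G : Subgroup X.Bir) where
  /-- the pull-back `p^*` -/
  up : (Fin Y.ρ → ℝ) → (Fin X.ρ → ℝ)
  /-- the push-forward (norm) `p_*` -/
  down : (Fin X.ρ → ℝ) → (Fin Y.ρ → ℝ)
  up_lin : IsLinearMap ℝ up
  down_lin : IsLinearMap ℝ down
  down_up : ∀ y, down (up y) = (Nat.card G : ℝ) • y
  up_down : ∀ x, up (down x) = ∑ᶠ g : G, X.pull g x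
  up_int : ∀ y, Integral y → Integral (up y)
  down_int : ∀ x, Integral x → Integral (down x)
  up_nef : ∀ y ∈ Y.Nef, up y ∈ X.Nef
  down_nef : ∀ x ∈ X.Nef, down x ∈ Y.Nef
  up_mov : ∀ y ∈ Y.Mov, up y ∈ X.Mov
  down_mov : ∀ x ∈ X.Mov, down x ∈ Y.Mov
  up_eff : ∀ y ∈ Y.Eff, up y ∈ X.Eff
  down_eff : ∀ x ∈ X.Eff, down x ∈ Y.Eff
  /-- a birational automorphism of `X` which commutes with `G` descends to `Y` -/
  descend : ∀ f : X.Bir, (∀ g ∈ G, g * f = f * g) →
    ∃ f' : Y.Bir, ∀ y, up (Y.pull f' y) = X.pull f (up y)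

/-- The varieties which are obtained from those in `𝓑` by products and by quotients by finite
groups of automorphisms. -/
inductive Generated (𝓑 : Set KTrivial) : KTrivial → Prop
  | base (X : KTrivial) : X ∈ 𝓑 → Generated 𝓑 X
  | product (X₁ X₂ X : KTrivial) : IsProduct X₁ X₂ X → Generated 𝓑 X₁ → Generated 𝓑 X₂ →
      Generated 𝓑 X
  | quotient (X Y : KTrivial) (G : Subgroup X.Bir) : Finite G → G ≤ X.Aut → IsQuotient X Y G →
      Generated 𝓑 X → Generated 𝓑 Y

theorem sandwich (X : KTrivial) : Sandwich X.Mov (X.Mov ∩ X.Eff) where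
  closed := X.mov.closed
  add := X.mov.add
  smul := X.mov.smul
  pointed := X.mov.line
  int := X.mov.int
  Nsub := Set.inter_subset_left
  Nint := fun x hx => ⟨interior_subset hx, X.int_eff hx⟩
  Nadd := fun x hx y hy => ⟨X.mov.add x hx.1 y hy.1, X.eff.add x hx.2 y hy.2⟩
  Nsmul := fun t ht x hx => ⟨X.mov.smul t ht x hx.1, X.eff.smul t ht x hx.2⟩

/-- The pull-back as a linear automorphism. -/
def pb (X : KTrivial) (f : X.Bir) : (Fin X.ρ → ℝ) ≃ₗ[ℝ] (Fin X.ρ → ℝ) where
  toFun := X.pull f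
  map_add' := (X.action.lin f).map_add
  map_smul' := (X.action.lin f).map_smul
  invFun := X.pull f⁻¹
  left_inv x := by rw [← X.action.mul, mul_inv_cancel, X.action.one]
  right_inv x := by rw [← X.action.mul, inv_mul_cancel, X.action.one]

theorem pb_apply (X : KTrivial) (f : X.Bir) (x : Fin X.ρ → ℝ) : pb X f x = X.pull f x := rfl

theorem pb_mul (X : KTrivial) (f g : X.Bir) : pb X (f * g) = pb X g * pb X f :=
  LinearEquiv.ext fun x => X.action.mul f g x

theorem pb_eq_one (X : KTrivial) (f : X.Bir) : pb X f = 1 ↔ ∀ x, X.pull f x = x := by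
  constructor
  · intro h x
    have := congrArg (fun e : (Fin X.ρ → ℝ) ≃ₗ[ℝ] (Fin X.ρ → ℝ) => e x) h
    exact this
  · intro h
    exact LinearEquiv.ext h

theorem hasFD_iff (X : KTrivial) : HasFD (pb X) (X.Mov ∩ X.Eff) ↔ MovableConeConjecture X := by
  constructor
  · rintro ⟨S, h1, h2, h3⟩
    refine ⟨S, h1, h2, ?_⟩
    rintro f ⟨x, hx⟩
    exact h3 f fun h => hx ((pb_eq_one X f).1 h x)
  · rintro ⟨S, h1, h2, h3⟩
    refine ⟨S, h1, h2, ?_⟩
    intro f hf
    apply h3
    by_contra hcon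
    push Not at hcon
    exact hf ((pb_eq_one X f).2 hcon)

/-- If the varieties in `𝓑` satisfy the movable cone conjecture, then so does every variety which
is obtained from them by products and by quotients by finite groups. -/
theorem result (𝓑 : Set KTrivial) (h𝓑 : ∀ X ∈ 𝓑, MovableConeConjecture X) :
    ∀ Y, Generated 𝓑 Y → MovableConeConjecture Y := by
  intro Y hY
  induction hY with
  | base X hX => exact h𝓑 X hX
  | product X₁ X₂ X p _ _ ih₁ ih₂ =>
    rw [← hasFD_iff] at ih₁ ih₂ ⊢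
    let e : (Fin X.ρ → ℝ) ≃ₗ[ℝ] (Fin X₁.ρ → ℝ) × (Fin X₂.ρ → ℝ) :=
      LinearEquiv.ofBijective ((p.lin₁.mk' _).prod (p.lin₂.mk' _)) p.bij
    have he : ∀ x, e x = (p.e₁ x, p.e₂ x) := fun x => rfl
    refine Pool.Agent.N165.KM.product (sandwich X₁) (sandwich X₂) (sandwich X) (pb_mul X₁)
      (pb_mul X₂) (pb_mul X) (fun f x hx => X.action.int f x hx)
      (fun f x hx => ⟨X.action.fst f x hx.1, X.action.snd f x hx.2⟩) e p.int ?_ ?_ ih₁ ih₂
    · intro x
      constructor
      · rintro ⟨h1, h2⟩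
        exact ⟨⟨((p.mov x).1 h1).1, ((p.eff x).1 h2).1⟩, ((p.mov x).1 h1).2, ((p.eff x).1 h2).2⟩
      · rintro ⟨⟨h1, h2⟩, h3, h4⟩
        exact ⟨(p.mov x).2 ⟨h1, h3⟩, (p.eff x).2 ⟨h2, h4⟩⟩
    · intro f₁ f₂
      obtain ⟨f, hf⟩ := p.aut f₁ f₂
      refine ⟨f, fun x => ?_⟩
      rw [he, he, pb_apply, (hf x).1, (hf x).2]
      rfl
  | quotient X Y G hG _ q _ ih =>
    rw [← hasFD_iff] at ih ⊢
    have : Fintype G := Fintype.ofFinite G
    exact descent (sandwich X) (sandwich Y) (pb_mul X) (pb_mul Y)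
      (fun f x hx => X.action.int f x hx)
      (fun f x hx => ⟨X.action.fst f x hx.1, X.action.snd f x hx.2⟩)
      (fun f x hx => Y.action.int f x hx)
      (fun f x hx => ⟨Y.action.fst f x hx.1, Y.action.snd f x hx.2⟩)
      (HomFin.of_divisible (pb_mul X) X.Aut0 X.aut0.normal X.aut0.comm X.aut0.div X.aut0.tors
        (fun t ht => (pb_eq_one X t).2 (X.aut0.trivial t ht))
        (by
          obtain ⟨R, hR⟩ := X.aut0.index
          refine ⟨R, fun k hk => ?_⟩
          have hk' := (pb_eq_one X k).1 hk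
          refine hR k ((X.aut_iff k).2 ?_) hk'
          have h1 : X.pull k = id := funext hk'
          rw [h1, Set.image_id]))
      G (q.up_lin.mk' _) (q.down_lin.mk' _)
      (fun y => by
        show q.down (q.up y) = _
        rw [q.down_up, Nat.card_eq_fintype_card])
      (fun x => by
        show q.up (q.down x) = _
        rw [q.up_down, finsum_eq_sum_of_fintype]
        rfl)
      (fun y hy => ⟨q.up_mov y hy.1, q.up_eff y hy.2⟩) (fun x hx => q.down_int x hx)
      (fun x hx => ⟨q.down_mov x hx.1, q.down_eff x hx.2⟩) q.descend ih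

end Pool.Agent.Results.MP_e39d36_ag.MovableQuotients
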